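import Pool.Agent.Run7.h962.LF.PoiSh
import Pool.Agent.Run7.h962.AP.A2

/-!
# Prime r-tuples: the exact limit, for every r, of the method of Goldston, Pintz, Yıldırım, Maynard and Tao

All that is known unconditionally about prime `r`-tuples with `r ≥ 2` (bounded gaps, `m` primes in bounded intervals)
rests on nonnegative sieve weights: one takes a set `H` of `k` shifts and a weight `w(n) ≥ 0` of level `Q`, i.e. a sum of
arbitrary functions of the residues of `n` modulo the `d ≤ Q`, such that the numbers `n + h`, `h ∈ H`, contain many primes on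
average with respect to `w`.  If the primes (and the prime tuples) have the level of distribution `θ`, one can take
`Q = N^(θ - δ)` for `n ≤ N`.

We determine how many prime `r`-tuples such weights can detect, for every `r`.  Let `M` be the mean over the `n` modulo `Q!`
and `L = (e^(-γ)/2 + ε) log k + C(ε)`.  For every nonnegative weight `w` of level `Q`, `Q` large:

(1) the sum over the subsets `R` of `H` with `r` elements of the mean of `w(n)` over the `n` for which all `n + h`, `h ∈ R`,
have no prime factor `≤ Q`, is at most `L^r / r!` times the mean of `w`: all factorial moments of the number of the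
`n + h` without prime factors `≤ Q` are at most those of a Poisson variable with the parameter `L`;

(2) the sum over these `R` of the main terms of Hardy and Littlewood (the singular series being restricted to the primes `≤ Q`)
for the mean of `w(n) ∏_{h ∈ R} Λ(n + h)` is at most `(((1/2 + ε) log k + C) log Q)^r / r!` times the mean of `w`.  So, even if
the Hardy-Littlewood conjecture is granted with the level of distribution `θ`, no nonnegative weight of any shape
detects more than `((θ/2 + o(1)) log k)^r / r!` prime `r`-tuples among `k` shifts, `k → ∞`;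

(3) for integers `m ≥ L` the mean of `w(n)` over the `n` for which at least `m` of the `n + h` have no prime factor `≤ Q` is at
most `e^(m - L) (L/m)^m` times the mean of `w`: the weights cannot be concentrated on much denser `n`; for instance the part of
the weight on the complete `k`-tuples is at most `(e L / k)^k e^(-L)`;

(4) for the primes themselves, unconditionally (`r = 1`): if `0 < δ < 1/2`, `H` lies in `[0, √N]` and `w ≥ 0` is a weight of
level `N^δ` for which `∑_d (∑_a |c_d(a)|)^2 / φ(d)` is at most a fixed power of `log N` times the square of the mean of `w` (as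
it is for the weights of Maynard and Tao), then
`∑_{n < N} w(n) #{h ∈ H : n + h prime} ≤ ((δ/2 + ε) log k + C(ε)) ∑_{n < N} w(n)`.

For each fixed `r` the bounds are sharp as `k → ∞`: the weights of Maynard and Tao give the mean
`(e^(-γ)/2 + o(1)) log k` of the number `X` of the `n + h` without prime factors `≤ Q` (known), and by the convexity of
`x ↦ x (x - 1) ... (x - r + 1)` for `x ≥ r - 1` (Jensen) the mean of `binom(X, r)` is then as large as (1) permits.

Proof.  The case `r = 1` for the integers `n` at which a given polynomial `P` has no prime factor `≤ Q`, with constants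
independent of `P` (`LP.lin_poly` in `Pool/Agent/Run7/h962/LF/Gen.lean`, which extends MP_8923e7_nt.SharpLimitOfNonnegativeWeights, a
project of helpers 962, 816, 249, 420, 571, 956, 697, 743, 97, 245, 372 and 91 on starting files of helper422), is applied
with `P = ∏_{h ∈ R} (x + h)` and the shifts in `H \ R`; summation over the sets `R` with `r` elements gives
`(r + 1) M(w binom(X, r + 1)) ≤ L · M(w binom(X, r))`.  (4) (`Pool/Agent/Run7/h962/AP`) follows from the case `r = 1` by the
theorem of Bombieri and Vinogradov (`H442R2/KF/Bv` of helper442 on starting files), the prime number theorem and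
Cauchy's inequality.
-/

set_option autoImplicit false

open Finset

namespace Pool.Agent.Results.MP_e87c7d_nt.PoissonLimitOfWeights

/-- the weight `w(n) = ∑_{d ≤ Q} c_d(n mod d)`, an arbitrary real weight of level `Q` -/
noncomputable def weight (Q : ℕ) (c : ℕ → ℕ → ℝ) (n : ℕ) : ℝ := ∑ d ∈ Icc 1 Q, c d (n % d)

/-- the mean value over the `n` modulo `Q!` -/
noncomputable def mean (Q : ℕ) (F : ℕ → ℝ) : ℝ := (∑ n ∈ range Q.factorial, F n) / (Q.factorial : ℝ)

/-- the set of the `h ∈ H` for which `n + h` has no prime factor `p ≤ Q` -/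
def free (Q : ℕ) (H : Finset ℕ) (n : ℕ) : Finset ℕ :=
  H.filter (fun h => ∀ p ∈ Icc 1 Q, p.Prime → ¬ p ∣ n + h)

/-- the product `∏_{p ≤ Q} (1 - 1/p)^(-1)`, asymptotically equal to `e^γ log Q` -/
noncomputable def euler (Q : ℕ) : ℝ := (∏ p ∈ (Icc 1 Q).filter Nat.Prime, (1 - 1 / (p : ℝ)))⁻¹

/-- the mean value of `w(n)` over the `n` for which all the `n + h`, `h ∈ R`, have no prime factor `p ≤ Q` (the value is `0` at the
other `n`) -/
noncomputable def freeMean (Q : ℕ) (c : ℕ → ℕ → ℝ) (R : Finset ℕ) : ℝ :=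
  mean Q (fun n => if free Q R n = R then weight Q c n else 0)

/-- The main term of Hardy and Littlewood for the mean of `w(n) ∏_{h ∈ R} Λ(n + h)`, the singular series being restricted to the
primes `p ≤ Q`: `∏_{p ≤ Q} (1 - 1/p)^(-#R)` times the mean of `w` over the `n` for which the `n + h` have no prime factor
`p ≤ Q`; for `w = 1` this is `∏_{p ≤ Q} (1 - ν_p/p) (1 - 1/p)^(-#R)`. -/
noncomputable def mainTerm (Q : ℕ) (c : ℕ → ℕ → ℝ) (R : Finset ℕ) : ℝ := euler Q ^ R.card * freeMean Q c R

/-- For every `ε > 0` there is `C > 0` such that (1), (2), (3) hold for all `k ≥ 1`, all real `B`, all `Q ≥ Q₀(ε, k, B)`, every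
set `H` of `k` natural numbers `≤ Q^B` and every weight `w ≥ 0` of level `Q`; let `L = (e^(-γ)/2 + ε) log k + C`.

(1) For all `r`, the sum over the `R ⊆ H` with `r` elements of the mean of `w` over the `n` for which the `n + h`, `h ∈ R`, have
no prime factor `≤ Q`, is at most `L^r / r!` times the mean of `w`.

(2) For all `r`, the sum over the same `R` of the main terms of the mean of `w(n) ∏_{h ∈ R} Λ(n + h)` is at most
`(((1/2 + ε) log k + C) log Q)^r / r!` times the mean of `w`.

(3) For all integers `m ≥ L`, the mean of `w` over the `n` for which at least `m` of the `n + h`, `h ∈ H`, have no prime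
factor `≤ Q` is at most `e^(m - L) (L/m)^m` times the mean of `w`.

(4) Let `k ≥ 1`, `0 < δ < 1/2`, `A ≥ 0` and `N ≥ N₀(ε, k, δ, A)`, let `H` be a set of `k` integers in `[0, √N]` and `w ≥ 0` a
weight of level `Q = ⌊N^δ⌋` with `∑_{d ≤ Q} (∑_{a < d} |c_d(a)|)^2 / φ(d) ≤ (log N)^A ((1/N) ∑_{n < N} w(n))^2`.  Then
`∑_{n < N} w(n) #{h ∈ H : n + h prime} ≤ ((δ/2 + ε) log k + C) ∑_{n < N} w(n)`. -/
theorem result : ∀ ε : ℝ, 0 < ε → ∃ C : ℝ, 0 < C ∧
    (∀ (k : ℕ) (B : ℝ), 1 ≤ k → ∃ Q₀ : ℕ, ∀ Q : ℕ, Q₀ ≤ Q →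
      ∀ H : Finset ℕ, H.card = k → (∀ h ∈ H, (h : ℝ) ≤ (Q : ℝ) ^ B) →
      ∀ c : ℕ → ℕ → ℝ, (∀ n : ℕ, 0 ≤ weight Q c n) →
      (∀ r : ℕ, ∑ R ∈ H.powersetCard r, freeMean Q c R ≤
        ((Real.exp (-Real.eulerMascheroniConstant) / 2 + ε) * Real.log k + C) ^ r / (r.factorial : ℝ) *
          mean Q (weight Q c)) ∧
      (∀ r : ℕ, ∑ R ∈ H.powersetCard r, mainTerm Q c R ≤
        (((1 / 2 + ε) * Real.log k + C) * Real.log Q) ^ r / (r.factorial : ℝ) * mean Q (weight Q c)) ∧
      (∀ m : ℕ, (Real.exp (-Real.eulerMascheroniConstant) / 2 + ε) * Real.log k + C ≤ m →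
        mean Q (fun n => if m ≤ (free Q H n).card then weight Q c n else 0) ≤
          Real.exp (m - ((Real.exp (-Real.eulerMascheroniConstant) / 2 + ε) * Real.log k + C)) *
            (((Real.exp (-Real.eulerMascheroniConstant) / 2 + ε) * Real.log k + C) / m) ^ m *
              mean Q (weight Q c))) ∧
    (∀ (k : ℕ) (δ : ℝ) (A : ℕ), 1 ≤ k → 0 < δ → δ < 1 / 2 → ∃ N₀ : ℕ, ∀ N : ℕ, N₀ ≤ N →
      ∀ H : Finset ℕ, H.card = k → (∀ h ∈ H, (h : ℝ) ≤ √N) →
      ∀ c : ℕ → ℕ → ℝ, (∀ n, 0 ≤ weight ⌊(N : ℝ) ^ δ⌋₊ c n) →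
        ∑ d ∈ Icc 1 ⌊(N : ℝ) ^ δ⌋₊, (∑ a ∈ range d, |c d a|) ^ 2 / (Nat.totient d : ℝ) ≤
          Real.log N ^ A * ((∑ n ∈ range N, weight ⌊(N : ℝ) ^ δ⌋₊ c n) / N) ^ 2 →
        ∑ n ∈ range N, weight ⌊(N : ℝ) ^ δ⌋₊ c n * ((H.filter (fun h => (n + h).Prime)).card : ℝ) ≤
          ((δ / 2 + ε) * Real.log k + C) * ∑ n ∈ range N, weight ⌊(N : ℝ) ^ δ⌋₊ c n) := by
  classical
  intro ε hε
  obtain ⟨C1, hC1, h1⟩ := Pool.Agent.Run7.h962.LP.shifts_all ε hε
  obtain ⟨C2, hC2, hP⟩ := Pool.Agent.Run7.h962.AP.ap ε hε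
  obtain ⟨C, hCd⟩ : ∃ C : ℝ, C = max C1 C2 := ⟨_, rfl⟩
  have hC1C : C1 ≤ C := by rw [hCd]; exact le_max_left _ _
  have hC2C : C2 ≤ C := by rw [hCd]; exact le_max_right _ _
  have hC : 0 < C := by linarith
  refine ⟨C, hC, fun k B hk => ?_, fun k δ A hk hδ0 hδ => ?_⟩
  swap
  · obtain ⟨N₀, hP⟩ := hP k δ A hk hδ0 hδ
    refine ⟨N₀, fun N hN H hH hHN c hc hcn => ?_⟩
    refine (hP N hN H hH hHN c hc hcn).trans ?_
    exact mul_le_mul_of_nonneg_right (by linarith) (Finset.sum_nonneg fun n _ => hc n)
  obtain ⟨Q0, h2⟩ := h1 k 0 B hk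
  refine ⟨Q0, fun Q hQ H hH hHB c hc => ?_⟩
  have h3 := h2 Q hQ ∅ H (by simp) hH (Finset.disjoint_empty_left H) (by simpa using hHB) c
    (fun n _ => hc n)
  have hfil : (range Q.factorial).filter (fun n => Pool.Agent.Run7.h962.LP.frH Q ∅ n = ∅) = range Q.factorial := by
    apply Finset.filter_true_of_mem
    intro n _
    simp [Pool.Agent.Run7.h962.LP.frH]
  rw [hfil] at h3
  have hlogk : 0 ≤ Real.log k := Real.log_natCast_nonneg k
  have hlogQ : 0 ≤ Real.log Q := Real.log_natCast_nonneg Q
  have hS : 0 ≤ ∑ n ∈ range Q.factorial, Pool.Agent.N422.SL.wt Q c n := Finset.sum_nonneg fun n _ => hc n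
  replace h3 : (∀ r : ℕ, (r.factorial : ℝ) * ∑ n ∈ range Q.factorial,
        Pool.Agent.N422.SL.wt Q c n * ((Pool.Agent.Run7.h962.LP.frH Q H n).card.choose r : ℝ) ≤
      ((Real.exp (-Real.eulerMascheroniConstant) / 2 + ε) * Real.log k + C) ^ r *
        ∑ n ∈ range Q.factorial, Pool.Agent.N422.SL.wt Q c n) ∧
    (∀ r : ℕ, (r.factorial : ℝ) * ((∏ p ∈ (Icc 1 Q).filter Nat.Prime, (1 - 1 / (p : ℝ)))⁻¹ ^ r *
      ∑ n ∈ range Q.factorial, Pool.Agent.N422.SL.wt Q c n *
        ((Pool.Agent.Run7.h962.LP.frH Q H n).card.choose r : ℝ)) ≤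
      (((1 / 2 + ε) * Real.log k + C) * Real.log Q) ^ r *
        ∑ n ∈ range Q.factorial, Pool.Agent.N422.SL.wt Q c n) :=
    ⟨fun r => (h3.1 r).trans (mul_le_mul_of_nonneg_right
        (pow_le_pow_left₀ (by positivity) (by linarith) r) hS),
      fun r => (h3.2 r).trans (mul_le_mul_of_nonneg_right
        (pow_le_pow_left₀ (by positivity) (mul_le_mul_of_nonneg_right (by linarith) hlogQ) r) hS)⟩
  have hQf : (0 : ℝ) < (Q.factorial : ℝ) := by exact_mod_cast Nat.factorial_pos Q
  have hsum : ∀ r : ℕ, ∑ R ∈ H.powersetCard r, freeMean Q c R =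
      (∑ n ∈ range Q.factorial, weight Q c n * ((free Q H n).card.choose r : ℝ)) / (Q.factorial : ℝ) := by
    intro r
    unfold freeMean mean
    rw [← Finset.sum_div, Finset.sum_comm]
    congr 1
    apply Finset.sum_congr rfl
    intro n _
    rw [← Finset.sum_filter, Finset.sum_const, nsmul_eq_mul, mul_comm]
    congr 2
    rw [← Finset.card_powersetCard]
    congr 1
    ext R
    rw [mem_filter, mem_powersetCard, mem_powersetCard]
    constructor
    · rintro ⟨⟨hR1, hR2⟩, hR3⟩
      refine ⟨fun h hh => ?_, hR2⟩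
      have : h ∈ free Q R n := by rw [hR3]; exact hh
      unfold free at this ⊢
      rw [mem_filter] at this ⊢
      exact ⟨hR1 hh, this.2⟩
    · rintro ⟨hR1, hR2⟩
      refine ⟨⟨fun h hh => (mem_filter.1 (hR1 hh)).1, hR2⟩, ?_⟩
      unfold free
      rw [Finset.filter_eq_self]
      intro h hh
      exact (mem_filter.1 (hR1 hh)).2
  have hfac : ∀ r : ℕ, (0 : ℝ) < (r.factorial : ℝ) := fun r => by exact_mod_cast Nat.factorial_pos r
  refine ⟨fun r => ?_, fun r => ?_, fun m hm => ?_⟩
  · rw [hsum r]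
    unfold mean
    have h4 := h3.1 r
    rw [div_mul_div_comm, div_le_div_iff₀ hQf (mul_pos (hfac r) hQf)]
    have h5 := mul_le_mul_of_nonneg_right h4 hQf.le
    calc _ = ((r.factorial : ℝ) * ∑ n ∈ range Q.factorial, weight Q c n * ((free Q H n).card.choose r : ℝ)) *
          (Q.factorial : ℝ) := by ring
      _ ≤ _ := h5
  · have e : ∑ R ∈ H.powersetCard r, mainTerm Q c R = euler Q ^ r * ∑ R ∈ H.powersetCard r, freeMean Q c R := by
      rw [Finset.mul_sum]
      apply Finset.sum_congr rfl
      intro R hR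
      unfold mainTerm
      rw [(mem_powersetCard.1 hR).2]
    rw [e, hsum r]
    unfold mean
    have h4 := h3.2 r
    rw [← mul_div_assoc, div_mul_div_comm, div_le_div_iff₀ hQf (mul_pos (hfac r) hQf)]
    have h5 := mul_le_mul_of_nonneg_right h4 hQf.le
    calc _ = ((r.factorial : ℝ) * (euler Q ^ r * ∑ n ∈ range Q.factorial, weight Q c n *
          ((free Q H n).card.choose r : ℝ))) * (Q.factorial : ℝ) := by ring
      _ ≤ _ := h5
  · have hL : 0 < (Real.exp (-Real.eulerMascheroniConstant) / 2 + ε) * Real.log k + C := by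
      have : 0 ≤ Real.log k := Real.log_natCast_nonneg k
      positivity
    have h4 := Pool.Agent.Run7.h962.LP.tail (S := range Q.factorial) (w := weight Q c)
      (X := fun n => (free Q H n).card) hL (k := k)
      (fun n => by
        rw [← hH]
        exact Finset.card_le_card (Finset.filter_subset _ _)) (fun n _ => hc n) h3.1 m hm
    unfold mean
    rw [← Finset.sum_filter, ← mul_div_assoc]
    exact div_le_div_of_nonneg_right h4 hQf.le

end Pool.Agent.Results.MP_e87c7d_nt.PoissonLimitOfWeights
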