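import Mathlib
import Pool.Agent.Run7.h402.PY.Y6

/-!
# The Hardy–Littlewood asymptotic formula for almost all `r`-tuples in SHORT boxes, uniformly for `r ≤ B log log X`

For all `A`, `B` there is `C` such that for all large `X`, ALL `r ≤ B log log X` and EVERY box
`[b_1, b_1 + H_1) × … × [b_r, b_r + H_r)` inside `[0, X) ^ r` with sides `H_i ≥ X ^ (1/3) (log X) ^ C`, all but at most
`H_1 ⋯ H_r / (log X) ^ A` of the integer vectors `(a_1, …, a_r)` in the box satisfy the asymptotic formula of Hardy and
Littlewood, uniformly up to `X`.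

The one-shift law for short shifts (the theorem of project MK, `Pool.Agent.Run7.h794.MK.one_all`: Mikawa's theorem with
arbitrary bounded weights) is used in residue classes modulo the product of the primes up to a multiple of `log log X`; the
products over the shifts are compared with products of the sieve model by telescoping in mean square, with pair
correlations bounded by Selberg's sieve, so that only a constant is lost for every shift.
-/

set_option autoImplicit false

open Finset
open Filter (Tendsto atTop)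
open scoped Topology Classical

namespace Pool.Agent.Results.MP_e87c7d_nt.ShortBoxesUpToLogLog

/-- the number `ν_p` of residue classes modulo `p` occupied by `a_1, …, a_r` -/
def nu {r : ℕ} (a : Fin r → ℕ) (p : ℕ) : ℕ := (univ.image (fun i => a i % p)).card

/-- the partial products of the singular series -/
noncomputable def partS {r : ℕ} (a : Fin r → ℕ) (z : ℕ) : ℝ :=
  ∏ p ∈ (Icc 1 z).filter Nat.Prime, (1 - (nu a p : ℝ) / p) / (1 - 1 / (p : ℝ)) ^ r

/-- the singular series -/
noncomputable def S {r : ℕ} (a : Fin r → ℕ) : ℝ := Filter.limUnder atTop (partS a)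

/-- there is no local obstruction -/
def Admissible {r : ℕ} (a : Fin r → ℕ) : Prop := ∀ p : ℕ, p.Prime → nu a p < p

/-- the number of `n ≤ y` such that all `n + a_i` are prime -/
def piA {r : ℕ} (a : Fin r → ℕ) (y : ℕ) : ℕ := ((Icc 1 y).filter (fun n => ∀ i, (n + a i).Prime)).card

/-- the same with the weights `∏ log (n + a_i)` -/
noncomputable def thetaA {r : ℕ} (a : Fin r → ℕ) (y : ℕ) : ℝ :=
  ∑ n ∈ (Icc 1 y).filter (fun n => ∀ i, (n + a i).Prime), ∏ i, Real.log ((n + a i : ℕ) : ℝ)

/-- the asymptotic formula for the vector `a`, uniformly up to `X` -/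
def Formula {r : ℕ} (a : Fin r → ℕ) (X A : ℕ) : Prop :=
  Function.Injective a ∧ Tendsto (partS a) atTop (𝓝 (S a)) ∧
  (Admissible a → 0 < S a ∧ ∀ y : ℕ, y ≤ X →
    |thetaA a y - S a * y| ≤ S a * (X / Real.log X ^ A) ∧
    |(piA a y : ℝ) * Real.log X ^ r - S a * y| ≤ S a * (y * Real.log X ^ (-(9 / 10) : ℝ) + X / Real.log X ^ A))

open Run7.h402.PW Run7.h402.PX
open Run7.h402.PT (nup Ap Fp)

theorem nu_eq {r : ℕ} (a : Fin r → ℕ) (p : ℕ) (hp : 0 < p) : nup a p = nu a p := by
  unfold nup nu
  have key : ∀ x y : ℕ, p ∣ x + y ↔ (p - x % p) % p = y % p := by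
    intro x y
    have h1 := Nat.mod_lt x hp
    have h2 := Nat.mod_lt y hp
    rw [Nat.dvd_iff_mod_eq_zero, Nat.add_mod]
    constructor
    · intro h
      rcases Nat.eq_zero_or_pos (x % p) with h3 | h3
      · rw [h3, Nat.sub_zero, Nat.mod_self]
        rw [h3, zero_add, Nat.mod_mod] at h
        exact h.symm
      · have h4 : x % p + y % p = p := by
          rcases Nat.lt_or_ge (x % p + y % p) p with h5 | h5
          · rw [Nat.mod_eq_of_lt h5] at h
            omega
          · rw [Nat.mod_eq_sub_mod h5, Nat.mod_eq_of_lt (by omega)] at h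
            omega
        rw [Nat.mod_eq_of_lt (by omega)]
        omega
    · intro h
      rw [← h, Nat.add_mod_mod]
      have : x % p + (p - x % p) = p := by omega
      rw [this, Nat.mod_self]
  apply card_bij (fun b _ => (p - b % p) % p)
  · intro b hb
    rw [mem_filter] at hb
    obtain ⟨_, i, hi⟩ := hb
    rw [mem_image]
    exact ⟨i, mem_univ _, ((key b (a i)).1 hi).symm⟩
  · intro b hb c hc h
    rw [mem_filter, mem_range] at hb hc
    rw [Nat.mod_eq_of_lt hb.1, Nat.mod_eq_of_lt hc.1] at h
    rcases Nat.eq_zero_or_pos b with h1 | h1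
    · rw [h1, Nat.sub_zero, Nat.mod_self] at h
      rcases Nat.eq_zero_or_pos c with h2 | h2
      · rw [h1, h2]
      · rw [Nat.mod_eq_of_lt (by omega)] at h
        omega
    · rw [Nat.mod_eq_of_lt (show p - b < p by omega)] at h
      rcases Nat.eq_zero_or_pos c with h2 | h2
      · rw [h2, Nat.sub_zero, Nat.mod_self] at h
        omega
      · rw [Nat.mod_eq_of_lt (by omega)] at h
        omega
  · intro y hy
    rw [mem_image] at hy
    obtain ⟨i, _, rfl⟩ := hy
    have h2 := Nat.mod_lt (a i) hp
    refine ⟨(p - a i % p) % p, ?_, ?_⟩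
    · rw [mem_filter, mem_range]
      refine ⟨Nat.mod_lt _ hp, i, ?_⟩
      rw [add_comm]
      exact (key (a i) _).2 (by rw [Nat.mod_mod])
    · rw [Nat.mod_mod]
      rcases Nat.eq_zero_or_pos (a i % p) with h3 | h3
      · rw [h3, Nat.sub_zero, Nat.mod_self, Nat.sub_zero, Nat.mod_self]
      · rw [Nat.mod_eq_of_lt (show p - a i % p < p by omega), Nat.mod_eq_of_lt (by omega)]
        omega

theorem part_eq {r : ℕ} (a : Fin r → ℕ) : Sz a = partS a := by
  funext z
  unfold Sz partS
  have h : Pool.Agent.H373R2.T7.pz z = (Icc 1 z).filter Nat.Prime := by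
    ext p
    rw [Pool.Agent.H373R2.T7.mem_pz, mem_filter, mem_Icc]
    constructor
    · rintro ⟨h1, h2⟩
      exact ⟨⟨h2.one_lt.le, h1⟩, h2⟩
    · rintro ⟨⟨_, h1⟩, h2⟩
      exact ⟨h1, h2⟩
  rw [h]
  apply prod_congr rfl
  intro p hp
  rw [mem_filter] at hp
  rw [nu_eq a p hp.2.pos]

theorem adm_of {r : ℕ} (a : Fin r → ℕ) (h : Admissible a) : Adm a := by
  intro p hp
  have h1 := h p hp
  unfold nu at h1
  by_contra hcon
  push Not at hcon
  have h2 : range p ⊆ univ.image (fun i => a i % p) := by
    intro s hs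
    rw [mem_range] at hs
    obtain ⟨i, hi⟩ := hcon s hs
    rw [mem_image]
    exact ⟨i, mem_univ _, hi⟩
  have h3 := card_le_card h2
  rw [card_range] at h3
  omega

theorem theta_eq {r : ℕ} (a : Fin r → ℕ) (y : ℕ) : wcnt a y = thetaA a y := by
  unfold wcnt thetaA
  rw [sum_congr rfl fun n _ => prod_Fp a n, sum_filter]

/-- **The Hardy–Littlewood asymptotic formula for almost all `r`-tuples in short boxes, uniformly for `r ≤ B log log X`.** -/
theorem result : ∀ A B : ℕ, ∃ C X₀ : ℕ, ∀ X : ℕ, X₀ ≤ X → ∀ r : ℕ, 1 ≤ r → (r : ℝ) ≤ B * Real.log (Real.log X) →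
    ∀ b H : Fin r → ℕ, (∀ i, (X : ℝ) ^ (1 / 3 : ℝ) * Real.log X ^ C ≤ H i) → (∀ i, b i + H i ≤ X) →
    (((Fintype.piFinset (fun i : Fin r => Ico (b i) (b i + H i))).filter (fun a => ¬ Formula a X A)).card : ℝ) ≤
      (∏ i, (H i : ℝ)) / Real.log X ^ A := by
  intro A B
  obtain ⟨C, X0, h0⟩ := Run7.h402.PY.almost_box B A
  refine ⟨C, X0, fun X hX r hr hrB b H hH1 hH2 => ?_⟩
  refine le_trans ?_ (h0 X hX r hr hrB b H hH1 hH2)
  have hinj : Set.InjOn (fun (a : Fin r → ℕ) (i : Fin r) => a i - b i)
      ((Fintype.piFinset (fun i : Fin r => Ico (b i) (b i + H i))).filter (fun a => ¬ Formula a X A) : Finset (Fin r → ℕ)) := by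
    intro x hx y hy h
    rw [Finset.mem_coe, mem_filter, Fintype.mem_piFinset] at hx hy
    funext i
    have h1 := mem_Ico.1 (hx.1 i)
    have h2 := mem_Ico.1 (hy.1 i)
    have h3 := congrFun h i
    simp only at h3
    omega
  rw [← card_image_of_injOn hinj]
  have hsub : ((Fintype.piFinset (fun i : Fin r => Ico (b i) (b i + H i))).filter (fun a => ¬ Formula a X A)).image
      (fun (a : Fin r → ℕ) (i : Fin r) => a i - b i) ⊆
      (Fintype.piFinset (fun i : Fin r => range (H i))).filter (fun m => ¬ FineL A X (fun i => b i + m i)) := by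
    intro m hm
    rw [mem_image] at hm
    obtain ⟨a, ha, rfl⟩ := hm
    rw [mem_filter, Fintype.mem_piFinset] at ha
    rw [mem_filter, Fintype.mem_piFinset]
    have hb : ∀ i, b i + (a i - b i) = a i := fun i => by
      have := mem_Ico.1 (ha.1 i)
      omega
    refine ⟨fun i => ?_, fun hF => ha.2 ?_⟩
    · have := mem_Ico.1 (ha.1 i)
      rw [mem_range]
      omega
    · have hba : (fun i => b i + (a i - b i)) = a := funext hb
      simp only [hba] at hF
      obtain ⟨hinj, hmain⟩ := hF
      have hlim : Tendsto (partS a) atTop (𝓝 (S a)) := by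
        unfold S
        apply tendsto_nhds_limUnder
        obtain ⟨s, hs⟩ := Sz_tendsto a hinj
        rw [part_eq] at hs
        exact ⟨s, hs⟩
      refine ⟨hinj, hlim, fun hadm => ?_⟩
      have h1 := hmain (adm_of a hadm) (S a) (by rw [part_eq]; exact hlim)
      refine ⟨h1.1, fun y hy => ?_⟩
      obtain ⟨h2, h3⟩ := h1.2 y hy
      rw [theta_eq] at h2
      exact ⟨h2, h3⟩
  exact_mod_cast card_le_card hsub

end Pool.Agent.Results.MP_e87c7d_nt.ShortBoxesUpToLogLog
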