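import Mathlib
import Pool.Agent.Run7.h17.Tern2
import Pool.Agent.Run7.h223.LE1

/-!
# Every integer as a sum of three integers which begin prime tuples, for almost all shifts

For instance sums `n 0 + n 1 + n 2 = N`, where prime tuples begin at `n 0`, `n 1` and `n 2`.
For almost all arrays of shifts `h j i`, `j < 3`, `i < k`, from families of nearly minimal additive energy (all integers up
to `x`, the elements of an arbitrary set of `x / log ^ C x` integers, the values of a polynomial), the weighted numbers of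
the solutions of `b 0 * n 0 + b 1 * n 1 + b 2 * n 2 = N`, for which all the `a j i * n j + h j i` are primes, agree with
the numbers for the sieve model, up to `x ^ 2 / log ^ U x`, for ALL integers `N` at the same time, with arbitrary
weights of the `n j` (for instance the weight `Λ(n j)`, which restricts `n j` to the primes).

Used: the starting files `Pool.Agent.H373R2.T7` (sieve model) and `Pool.Agent.H560R3.GB` (von Mangoldt's function along
families of small energy). From Mathlib: `ArithmeticFunction.vonMangoldt` is von Mangoldt's function `Λ`;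
`Finset.Icc 1 x` are the integers from `1` to `x`; `Int.toNat n = 0` for negative `n`, and `Λ(0) = 0`.
-/

set_option autoImplicit false

namespace Pool.Agent.Results.MP_e87c7d_nt.TernarySums

open Finset

/-- The additive energy of order `p` of the family `v 1, ..., v M`: the number of solutions of
`v (m 1) + ... + v (m p) = v (m' 1) + ... + v (m' p)` with all `m i`, `m' i` in `{1, ..., M}`. -/
def energy (p M : ℕ) (v : ℕ → ℤ) : ℕ :=
  (((Fintype.piFinset fun _ : Fin p => Icc 1 M) ×ˢ (Fintype.piFinset fun _ : Fin p => Icc 1 M)).filter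
    (fun q => ∑ i, v (q.1 i) = ∑ i, v (q.2 i))).card

/-- The family `v 1, ..., v M` has members of absolute value at most `x log ^ κ x`, and its additive energy of some order
`p ≤ h` is at most `log ^ κ x` times `M ^ (2 p) / x`. -/
def Spread (h κ x M : ℕ) (v : ℕ → ℤ) : Prop :=
  (∀ m ∈ Icc 1 M, |(v m : ℝ)| ≤ Real.log x ^ κ * x) ∧
    ∃ p : ℕ, 1 ≤ p ∧ p ≤ h ∧ (energy p M v : ℝ) * x ≤ Real.log x ^ κ * (M : ℝ) ^ (2 * p)

/-- Von Mangoldt's function on the integers; it is `0` at the integers `n ≤ 0`. -/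
noncomputable def vM (n : ℤ) : ℝ := ArithmeticFunction.vonMangoldt n.toNat

/-- The sieve model: the positive integers without prime factors up to `z` have the weight `∏_{p ≤ z} (1 - 1 / p)⁻¹`,
the other integers the weight `0`. -/
noncomputable def model (z : ℕ) (n : ℤ) : ℝ :=
  if 1 ≤ n ∧ ∀ p ∈ (Icc 1 z).filter Nat.Prime, ¬ p ∣ n.toNat then
    (∏ p ∈ (Icc 1 z).filter Nat.Prime, (1 - 1 / (p : ℝ)))⁻¹ else 0

/-- The number of the solutions of `b 0 * n₀ + b 1 * n₁ + b 2 * n₂ = N` in integers `n₀`, `n₁`, `n₂` from `1` to `x`, where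
the solution `(n₀, n₁, n₂)` has the weight `w 0 n₀ * w 1 n₁ * w 2 n₂`. -/
noncomputable def solutions (x : ℕ) (b : Fin 3 → ℤ) (w : Fin 3 → ℕ → ℝ) (N : ℤ) : ℝ :=
  ∑ n₀ ∈ Icc 1 x, ∑ n₁ ∈ Icc 1 x, ∑ n₂ ∈ Icc 1 x,
    if b 0 * n₀ + b 1 * n₁ + b 2 * n₂ = N then w 0 n₀ * w 1 n₁ * w 2 n₂ else 0

/-- The weight `θ(n) ∏_i Λ(a i * n + c i)`. -/
noncomputable def primeWeight {k : ℕ} (θ : ℕ → ℝ) (a c : Fin k → ℤ) (n : ℕ) : ℝ :=
  θ n * ∏ i, vM (a i * n + c i)

/-- The weight `θ(n) ∏_i model(a i * n + c i)`. -/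
noncomputable def modelWeight {k : ℕ} (z : ℕ) (θ : ℕ → ℝ) (a c : Fin k → ℤ) (n : ℕ) : ℝ :=
  θ n * ∏ i, model z (a i * n + c i)

lemma lam_eq (n : ℤ) : Pool.Agent.H373R2.T7.lamI n = vM n := by
  unfold Pool.Agent.H373R2.T7.lamI vM
  split_ifs with h
  · rfl
  · have : n.toNat = 0 := Int.toNat_of_nonpos (by omega)
    rw [this]
    simp

lemma lamz_eq (z : ℕ) (n : ℤ) : Pool.Agent.H373R2.T7.lamzI z n = model z n := by
  unfold Pool.Agent.H373R2.T7.lamzI Pool.Agent.H373R2.T7.lamz model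
  by_cases h : 1 ≤ n
  · rw [if_pos h]
    by_cases h2 : ∀ p ∈ Pool.Agent.H373R2.T7.pz z, ¬ p ∣ n.toNat
    · rw [if_pos h2, if_pos ⟨h, h2⟩]
      rfl
    · rw [if_neg h2, if_neg (fun h3 => h2 h3.2)]
  · rw [if_neg h, if_neg (fun h3 => h h3.1)]

open Classical in
/-- Let `k`, `h`, `κ`, `U` be fixed. There is `B₀` such that for all `E` and all large `x` the following holds for all
nonzero integers `a j i` (`j < 3`, `i < k`) and `b j` of absolute value at most `log ^ κ x`, all families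
`v j i 1, ..., v j i (M j i)` of nearly minimal energy (`Spread`), all `z` between `log ^ B₀ x` and `log ^ E x`, and all
weights `θ j`, bounded by `log ^ κ x` on `[1, x]`. For all arrays `(v j i (m j i))` of shifts from the families but at most
the proportion `1 / log ^ U x` of them, for ALL integers `N` the weighted numbers of solutions for the primes and for the
model differ by at most `x ^ 2 / log ^ U x`. -/
theorem result (k h κ U : ℕ) : ∃ B₀ : ℕ, ∀ E : ℕ, ∃ x₀ : ℕ, ∀ x : ℕ, x₀ ≤ x →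
    ∀ a : Fin 3 → Fin k → ℤ, (∀ j i, a j i ≠ 0 ∧ |(a j i : ℝ)| ≤ Real.log x ^ κ) →
    ∀ (M : Fin 3 → Fin k → ℕ) (v : Fin 3 → Fin k → ℕ → ℤ), (∀ j i, Spread h κ x (M j i) (v j i)) →
    ∀ z : ℕ, Real.log x ^ B₀ ≤ z → (z : ℝ) ≤ Real.log x ^ E →
    ∀ θ : Fin 3 → ℕ → ℝ, (∀ j, ∀ n ∈ Icc 1 x, |θ j n| ≤ Real.log x ^ κ) →
    ∀ b : Fin 3 → ℤ, (∀ j, b j ≠ 0 ∧ |(b j : ℝ)| ≤ Real.log x ^ κ) →
    (((Fintype.piFinset (fun j => Fintype.piFinset (fun i => Icc 1 (M j i)))).filter
      (fun m : Fin 3 → Fin k → ℕ => ¬ ∀ N : ℤ,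
        |solutions x b (fun j => primeWeight (θ j) (a j) (fun i => v j i (m j i))) N -
          solutions x b (fun j => modelWeight z (θ j) (a j) (fun i => v j i (m j i))) N| ≤
          (x : ℝ) ^ 2 / Real.log x ^ U)).card : ℝ) ≤
      (∏ j, ∏ i, (M j i : ℝ)) / Real.log x ^ U := by
  obtain ⟨B0, hB0⟩ := Pool.Agent.Run7.h17.Tern.tern_pos k h (κ + 1) U
  refine ⟨B0, fun E => ?_⟩
  obtain ⟨n1, h1⟩ := hB0 E
  obtain ⟨n2, h2⟩ := Pool.Agent.H373R2.T7.ev_L' 3
  refine ⟨n1 + n2 + 1, fun x hx a ha M v hv z hz1 hz2 θ hθ b hb => ?_⟩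
  have hlog := h2 x (by omega)
  have hL1 : 1 ≤ Real.log x := by linarith
  have hx1 : (1 : ℝ) ≤ x := by exact_mod_cast (by omega : 1 ≤ x)
  have hx0 : (0 : ℝ) < x := by linarith
  have hκ : Real.log x ^ κ ≤ Real.log x ^ (κ + 1) := pow_le_pow_right₀ hL1 (by omega)
  have hκ0 : 0 < Real.log x ^ κ := by positivity
  have key := h1 x (by omega) M (fun j i t => a j i * (t : ℤ)) v
    (fun j i t ht => by
      rw [mem_Icc] at ht
      rw [abs_mul, Nat.abs_cast]
      push_cast
      exact mul_le_mul ((ha j i).2.trans hκ) (by exact_mod_cast ht.2) (Nat.cast_nonneg _) (by positivity))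
    (fun j i c => by
      have e1 : ((Icc 1 x).filter (fun t : ℕ => a j i * (t : ℤ) = c)).card ≤ 1 := by
        rw [card_le_one]
        intro u hu w hw
        rw [mem_filter] at hu hw
        exact_mod_cast mul_left_cancel₀ (ha j i).1 (hu.2.trans hw.2.symm)
      exact (by exact_mod_cast e1 : (((Icc 1 x).filter (fun t : ℕ => a j i * (t : ℤ) = c)).card : ℝ) ≤ 1).trans
        (one_le_pow₀ hL1))
    (fun j i m hm => by
      have := (hv j i).1 m hm
      push_cast
      exact this.trans (mul_le_mul_of_nonneg_right hκ hx0.le))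
    (fun j i => by
      obtain ⟨_, p, _, hp, hE⟩ := hv j i
      have e1 : (Pool.Agent.H373R2.T7.energy p (M j i) (v j i) : ℝ) * x ≤
          Real.log x ^ (κ + 1) * (M j i : ℝ) ^ (2 * p) := hE.trans (mul_le_mul_of_nonneg_right hκ (by positivity))
      exact Run7.h223.LE.spread_mono (κ + 1) p h (M j i) x hp _ e1)
    z hz1 hz2 θ (fun j n hn => (hθ j n hn).trans hκ) b (fun j => (hb j).1) (by
    have e0 := (hb 0).2
    have e1 := (hb 1).2
    have e2 := (hb 2).2
    push_cast
    rw [pow_succ]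
    nlinarith)
  refine le_trans (Nat.cast_le.mpr (card_le_card ?_)) key
  intro m hm
  rw [mem_filter] at hm ⊢
  refine ⟨hm.1, ?_⟩
  obtain ⟨n, hn⟩ := not_forall.mp hm.2
  refine ⟨n, ?_⟩
  have hn := not_le.mp hn
  refine lt_of_lt_of_eq hn ?_
  have e1 : ∀ j : Fin 3, (primeWeight (θ j) (a j) (fun i => v j i (m j i))) =
      fun t : ℕ => θ j t * ∏ i, Pool.Agent.H373R2.T7.lamI (a j i * (t : ℤ) + v j i (m j i)) := by
    intro j
    ext t
    unfold primeWeight
    congr 1
    exact prod_congr rfl fun i _ => by rw [← lam_eq]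
  have e2 : ∀ j : Fin 3, (modelWeight z (θ j) (a j) (fun i => v j i (m j i))) =
      fun t : ℕ => θ j t * ∏ i, Pool.Agent.H373R2.T7.lamzI z (a j i * (t : ℤ) + v j i (m j i)) := by
    intro j
    ext t
    unfold modelWeight
    congr 1
    exact prod_congr rfl fun i _ => by rw [← lamz_eq]
  unfold solutions Pool.Agent.Run7.h17.Tern.rep
  simp only [e1, e2]

end Pool.Agent.Results.MP_e87c7d_nt.TernarySums
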